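import Pool.Agent.W2helper19.TQ.B1

/-!
Piece B1 of project TQ (helper24): the Hecke character of conductor `4 √-3`, second part.
-/

set_option autoImplicit false

namespace Pool.Agent.W2helper19.TQ

open NumberField IsDedekindDomain Complex
open Pool.Agent.Y696 Pool.Agent.W192.HK Pool.Agent.TH936.CM Pool.Agent.TH936.PU
open Pool.Agent.W2helper24.TQ
open scoped Classical

lemma lam_ne : lam ≠ 0 := by
  intro h
  rw [E_lam, E_zero] at h
  have := E_inj h
  omega

lemma four_lam_ne : (4 * lam : eis) ≠ 0 := by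
  refine mul_ne_zero ?_ lam_ne
  intro h
  rw [E_four, E_zero] at h
  have := E_inj h
  omega

lemma cop_four (I : Ideal eis) : IsCoprime I (sp (4 * lam)) ↔ IsCoprime I (sp (2 * lam)) := by
  have e1 : sp (4 * lam) = (sp 2 : Ideal eis) * sp (2 * lam) := by
    rw [Ideal.span_singleton_mul_span_singleton, show (4 * lam : eis) = 2 * (2 * lam) by ring]
  have e2 : sp (2 * lam) = (sp 2 : Ideal eis) * sp lam := by
    rw [Ideal.span_singleton_mul_span_singleton]
  constructor
  · intro h
    rw [e1] at h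
    exact h.of_mul_right_right
  · intro h
    rw [e1]
    refine IsCoprime.mul_right ?_ h
    rw [e2] at h
    exact h.of_mul_right_left

lemma not_cop_bot' : ¬ IsCoprime (⊥ : Ideal eis) (sp (2 * lam)) := by
  intro h
  obtain ⟨α, h1, h2⟩ := exists_prm h
  exact prm_ne h2 (Ideal.span_singleton_eq_bot.1 h1.symm)

lemma psim_mul (I J : Ideal eis) : psim (I * J) = psim I * psim J := by
  by_cases hI : IsCoprime I (sp (2 * lam))
  · by_cases hJ : IsCoprime J (sp (2 * lam))
    · obtain ⟨α, rfl, hα⟩ := exists_prm hI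
      obtain ⟨β, rfl, hβ⟩ := exists_prm hJ
      have e : sp α * sp β = sp (α * β) := Ideal.span_singleton_mul_span_singleton α β
      rw [e, psim_prm hα, psim_prm hβ, psim_prm (prm_mul hα hβ)]
      push_cast
      rfl
    · rw [(psim_zero J).2 hJ, mul_zero, psim_zero]
      intro h
      exact hJ (IsCoprime.of_mul_left_right h)
  · rw [(psim_zero I).2 hI, zero_mul, psim_zero]
    intro h
    exact hI (IsCoprime.of_mul_left_left h)

theorem hc_psim : HC 1 (sp (4 * lam)) psim := by
  refine ⟨?_, psim_mul, ?_, ?_, ?_⟩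
  · rw [Ne, Ideal.span_singleton_eq_bot]
    exact four_lam_ne
  · intro I
    rw [psim_zero, cop_four]
    constructor
    · intro h
      exact Or.inr h
    · rintro (rfl | h)
      · exact not_cop_bot'
      · exact h
  · intro α _ hα
    have hp : Prm α := by
      obtain ⟨x, y, rfl⟩ := E_rep α
      rw [Ideal.mem_span_singleton'] at hα
      obtain ⟨t, ht⟩ := hα
      obtain ⟨a, b, rfl⟩ := E_rep t
      rw [E_four, E_lam, E_one, E_sub, E_mul, E_mul] at ht
      obtain ⟨h1, h2⟩ := E_inj ht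
      rw [prm_iff]
      constructor
      · omega
      · left
        constructor <;> omega
    rw [psim_prm hp, pow_one]
  · intro q' hq'
    obtain ⟨d, rfl⟩ : ∃ d : eis, q' = sp d :=
      ⟨_, (Submodule.IsPrincipal.span_singleton_generator q').symm⟩
    have h1 : d ∣ 4 * lam := Ideal.span_singleton_le_span_singleton.1 hq'.le
    obtain ⟨e, he⟩ := h1
    have hcase : (∃ t, e = 2 * t) ∨ (∃ t, e = lam * t) := by
      by_contra hcon
      push Not at hcon
      obtain ⟨hc1, hc2⟩ := hcon
      obtain ⟨x, y, rfl⟩ := E_rep e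
      have hcop : IsCoprime (E x y) (2 * lam) := by
        rw [cop_iff']
        constructor
        · intro h
          have h3 : E x y ∈ (sp 2 : Ideal eis) := (mem_two x y).2 h
          obtain ⟨t, ht⟩ := Ideal.mem_span_singleton'.1 h3
          exact hc1 t (by rw [← ht]; ring)
        · intro h
          have h3 : E x y ∈ (sp lam : Ideal eis) := (mem_lam x y).2 h
          obtain ⟨t, ht⟩ := Ideal.mem_span_singleton'.1 h3
          exact hc2 t (by rw [← ht]; ring)
      have hcop4 : IsCoprime (E x y) (4 * lam) := by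
        have := hcop.of_mul_right_left.mul_right hcop
        convert this using 1
        ring
      have hu : IsUnit (E x y) := by
        rw [he] at hcop4
        exact isCoprime_self.1 hcop4.of_mul_right_right
      obtain ⟨w, hw⟩ := hu.exists_right_inv
      apply absurd (le_antisymm hq'.le ?_) hq'.ne
      rw [Ideal.span_singleton_le_span_singleton]
      exact ⟨w, by rw [he, mul_assoc, hw, mul_one]⟩
    rcases hcase with ⟨t, rfl⟩ | ⟨t, rfl⟩
    · -- `d` divides `2 lam`
      have hd : 2 * lam = d * t := by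
        have : (2 : eis) * (2 * lam) = 2 * (d * t) := by linear_combination he
        exact mul_left_cancel₀ (by
          intro h
          rw [E_two, E_zero] at h
          have := E_inj h
          omega) this
      have hp : Prm (-E (-3) (-2)) := by
        rw [E_neg, prm_iff]; norm_num
      have hsp : sp (E (-3) (-2)) = sp (-E (-3) (-2)) := (Ideal.span_singleton_neg _).symm
      refine ⟨E (-3) (-2), ?_, ?_, ?_, ?_⟩
      · intro h
        rw [E_zero] at h
        have := E_inj h
        omega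
      · rw [Ideal.mem_span_singleton]
        have : E (-3) (-2) - 1 = 2 * lam * omr := by
          rw [E_one, E_two, E_lam, E_om, E_sub, E_mul, E_mul]; norm_num
        rw [this, hd]
        exact ⟨t * omr, by ring⟩
      · rw [cop_four, Ideal.isCoprime_span_singleton_iff, cop_iff']
        constructor <;> omega
      · rw [hsp, psim_prm hp, pow_one]
        intro h
        have h2 : -E (-3) (-2) = E (-3) (-2) := coe_inj' h
        rw [E_neg] at h2
        have := E_inj h2
        omega
    · -- `d` divides `4`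
      have hd : (4 : eis) = d * t := by
        have : lam * (4 : eis) = lam * (d * t) := by linear_combination he
        exact mul_left_cancel₀ lam_ne this
      have hp : Prm (-E 5 0) := by
        rw [E_neg, prm_iff]; norm_num
      have hsp : sp (E 5 0) = sp (-E 5 0) := (Ideal.span_singleton_neg _).symm
      refine ⟨E 5 0, ?_, ?_, ?_, ?_⟩
      · intro h
        rw [E_zero] at h
        have := E_inj h
        omega
      · rw [Ideal.mem_span_singleton]
        have : E 5 0 - 1 = (4 : eis) := by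
          rw [E_one, E_four, E_sub]; norm_num
        rw [this, hd]
        exact ⟨t, rfl⟩
      · rw [cop_four, Ideal.isCoprime_span_singleton_iff, cop_iff']
        constructor <;> omega
      · rw [hsp, psim_prm hp, pow_one]
        intro h
        have h2 : -E 5 0 = E 5 0 := coe_inj' h
        rw [E_neg] at h2
        have := E_inj h2
        omega

/-! ### The finite part -/

/-- the coordinates -/
noncomputable def cx (z : eis) : ℤ := (E_rep z).choose
noncomputable def cy (z : eis) : ℤ := (E_rep z).choose_spec.choose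

lemma c_rep (z : eis) : z = E (cx z) (cy z) := (E_rep z).choose_spec.choose_spec

lemma c_E (x y : ℤ) : cx (E x y) = x ∧ cy (E x y) = y := by
  have := E_inj (c_rep (E x y))
  exact ⟨this.1.symm, this.2.symm⟩

/-- the sixth root of unity -/
noncomputable def zt : ℂ := -om ^ 2

lemma zt_six : zt ^ 6 = 1 := by
  unfold zt
  have h3 := om_cube
  calc (-om ^ 2) ^ 6 = (om ^ 3) ^ 4 := by ring
    _ = 1 := by rw [h3, one_pow]

lemma zt_two : zt ^ 2 = om := by
  unfold zt
  have h3 := om_cube
  linear_combination om * h3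

lemma zt_three : zt ^ 3 = -1 := by
  unfold zt
  have h3 := om_cube
  linear_combination -(om ^ 3 + 1) * h3

/-- values in `{0} ∪ μ₆`, coded by `0, ..., 6` -/
noncomputable def val (k : Fin 7) : ℂ := if k = 0 then 0 else zt ^ (k.val - 1)

/-- multiplication of codes -/
def mulT (a b : Fin 7) : Fin 7 :=
  if a = 0 ∨ b = 0 then 0 else ⟨(a.val + b.val - 2) % 6 + 1, by omega⟩

lemma val_mul (a b : Fin 7) : val (mulT a b) = val a * val b := by
  by_cases ha : a = 0
  · simp [val, mulT, ha]
  by_cases hb : b = 0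
  · simp [val, mulT, hb]
  have ha' : 1 ≤ a.val := Nat.one_le_iff_ne_zero.2 (fun h => ha (Fin.ext h))
  have hb' : 1 ≤ b.val := Nat.one_le_iff_ne_zero.2 (fun h => hb (Fin.ext h))
  have hm : mulT a b = ⟨(a.val + b.val - 2) % 6 + 1, by omega⟩ := by
    unfold mulT
    rw [if_neg (by tauto)]
  have hn : mulT a b ≠ 0 := by
    rw [hm]
    intro h
    have := congrArg Fin.val h
    simp at this
  unfold val
  rw [if_neg hn, if_neg ha, if_neg hb, hm, ← pow_add]
  simp only [Nat.add_sub_cancel]
  rw [← pow_eq_pow_mod _ zt_six]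
  congr 1
  omega

/-- code of the class modulo four -/
def h4 (a b : ZMod 4) : Fin 7 :=
  if 2 * a = 0 then
    (if 2 * b = 0 then 0 else if a ^ 2 - a * b + b ^ 2 = 1 then 3 else 6)
  else if 2 * b = 0 then (if a ^ 2 - a * b + b ^ 2 = 1 then 1 else 4)
  else (if a ^ 2 - a * b + b ^ 2 = 1 then 5 else 2)

lemma h4_mul : ∀ a b c d : ZMod 4, h4 (a * c - b * d) (a * d + b * c - b * d) =
    mulT (h4 a b) (h4 c d) := by decide +kernel

/-- code of the class modulo `√-3` -/
def h3 (a : ZMod 3) : Fin 7 := if a = 0 then 0 else if a = 1 then 1 else 4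

lemma h3_mul : ∀ a b : ZMod 3, h3 (a * b) = mulT (h3 a) (h3 b) := by decide +kernel

/-- the character modulo four -/
noncomputable def t4 (z : eis) : ℂ := val (h4 (cx z : ZMod 4) (cy z : ZMod 4))

/-- the character modulo `√-3` -/
noncomputable def tl (z : eis) : ℂ := val (h3 ((cx z + cy z : ℤ) : ZMod 3))

lemma t4_E (x y : ℤ) : t4 (E x y) = val (h4 (x : ZMod 4) (y : ZMod 4)) := by
  unfold t4; rw [(c_E x y).1, (c_E x y).2]

lemma tl_E (x y : ℤ) : tl (E x y) = val (h3 ((x + y : ℤ) : ZMod 3)) := by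
  unfold tl; rw [(c_E x y).1, (c_E x y).2]

lemma t4_mul (z w : eis) : t4 (z * w) = t4 z * t4 w := by
  obtain ⟨a, b, rfl⟩ := E_rep z
  obtain ⟨c, d, rfl⟩ := E_rep w
  rw [E_mul, t4_E, t4_E, t4_E, ← val_mul, ← h4_mul]
  push_cast
  rfl

lemma tl_mul (z w : eis) : tl (z * w) = tl z * tl w := by
  obtain ⟨a, b, rfl⟩ := E_rep z
  obtain ⟨c, d, rfl⟩ := E_rep w
  rw [E_mul, tl_E, tl_E, tl_E, ← val_mul, ← h3_mul]
  congr 2
  have h : (3 : ZMod 3) = 0 := rfl
  push_cast
  linear_combination (-(b : ZMod 3) * d) * h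

lemma zmod4_eq {a b : ℤ} (h : 4 ∣ a - b) : (a : ZMod 4) = b := by
  have := (ZMod.intCast_zmod_eq_zero_iff_dvd (a - b) 4).2 (by exact_mod_cast h)
  push_cast at this
  exact sub_eq_zero.1 this

lemma zmod3_eq {a b : ℤ} (h : 3 ∣ a - b) : (a : ZMod 3) = b := by
  have := (ZMod.intCast_zmod_eq_zero_iff_dvd (a - b) 3).2 (by exact_mod_cast h)
  push_cast at this
  exact sub_eq_zero.1 this

lemma val_0 : val 0 = 0 := by simp [val]
lemma val_1 : val 1 = 1 := by
  unfold val; rw [if_neg (by decide)]; simp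
lemma val_4 : val 4 = -1 := by
  unfold val; rw [if_neg (by decide)]
  exact zt_three
lemma val_3 : val 3 = om := by
  unfold val; rw [if_neg (by decide)]
  exact zt_two

lemma thl : Thl tl := by
  constructor
  · intro z hz
    obtain ⟨x, y, rfl⟩ := E_rep z
    rw [E_one, E_sub, mem_lam] at hz
    rw [tl_E, zmod3_eq (b := 1) (by omega)]
    have : h3 ((1 : ℤ) : ZMod 3) = 1 := by decide
    rw [this, val_1]
  · intro z hz
    obtain ⟨x, y, rfl⟩ := E_rep z
    rw [E_one, E_add, mem_lam] at hz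
    rw [tl_E, zmod3_eq (b := -1) (by omega)]
    have : h3 ((-1 : ℤ) : ZMod 3) = 4 := by decide
    rw [this, val_4]
  · intro z hz
    obtain ⟨x, y, rfl⟩ := E_rep z
    rw [mem_lam] at hz
    rw [tl_E, zmod3_eq (b := 0) (by omega)]
    have : h3 ((0 : ℤ) : ZMod 3) = 0 := by decide
    rw [this, val_0]

lemma norm_zt : ‖zt‖ = 1 := by
  have h : ‖zt‖ ^ 6 = 1 := by rw [← norm_pow, zt_six, norm_one]
  exact (pow_eq_one_iff_of_nonneg (norm_nonneg _) (by norm_num)).1 h

lemma val_bd (k : Fin 7) : ‖val k‖ ≤ 1 := by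
  unfold val
  split_ifs
  · simp
  · rw [norm_pow, norm_zt, one_pow]

lemma tl_eo : Eo lam tl := by
  refine ⟨?_, tl_mul, ?_, fun x => val_bd _⟩
  · intro z w h
    obtain ⟨a, b, rfl⟩ := E_rep z
    obtain ⟨c, d, rfl⟩ := E_rep w
    rw [E_sub, mem_lam] at h
    rw [tl_E, tl_E, zmod3_eq (a := a + b) (b := c + d) (by omega)]
  · intro z
    have h : tl (-1) = -1 := thl.neg _ (by rw [neg_add_cancel]; exact Submodule.zero_mem _)
    calc tl (-z) = tl (-1 * z) := by rw [neg_one_mul]
      _ = _ := by rw [tl_mul, h, neg_one_mul]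

lemma th4 : Th4 t4 := by
  refine ⟨?_, t4_mul, ?_, ?_, ?_, ?_⟩
  · intro z w h
    obtain ⟨a, b, rfl⟩ := E_rep z
    obtain ⟨c, d, rfl⟩ := E_rep w
    rw [E_sub, mem_four] at h
    rw [t4_E, t4_E, zmod4_eq h.1, zmod4_eq h.2]
  · intro z h
    obtain ⟨a, b, rfl⟩ := E_rep z
    rw [mem_two] at h
    obtain ⟨⟨a, rfl⟩, ⟨b, rfl⟩⟩ := h
    have key : ∀ a b : ZMod 4, h4 (2 * a) (2 * b) = 0 := by decide +kernel
    rw [t4_E]
    push_cast
    rw [key, val_0]
  · intro z
    rw [t4_mul, E_om, t4_E]
    have : h4 ((0 : ℤ) : ZMod 4) ((1 : ℤ) : ZMod 4) = 3 := by decide +kernel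
    rw [this, val_3]
  · intro z h1 h2
    obtain ⟨x, y, rfl⟩ := E_rep z
    rw [E_one, E_sub, mem_two] at h1
    rw [E_norm, E_one, E_sub, mem_four] at h2
    obtain ⟨⟨a, ha⟩, ⟨b, hb⟩⟩ := h1
    have hx : x = 2 * a + 1 := by linarith
    have hy : y = 2 * b := by linarith
    have hn := zmod4_eq h2.1
    have key : ∀ a b : ZMod 4, (2 * a + 1) ^ 2 - (2 * a + 1) * (2 * b) + (2 * b) ^ 2 = 1 →
      h4 (2 * a + 1) (2 * b) = 1 := by decide +kernel
    rw [t4_E]
    subst hx hy
    push_cast at hn ⊢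
    rw [key _ _ hn, val_1]
  · intro z h1 h2
    obtain ⟨x, y, rfl⟩ := E_rep z
    rw [E_one, E_sub, mem_two] at h1
    rw [E_norm, E_one, E_add, mem_four] at h2
    obtain ⟨⟨a, ha⟩, ⟨b, hb⟩⟩ := h1
    have hx : x = 2 * a + 1 := by linarith
    have hy : y = 2 * b := by linarith
    have hn := zmod4_eq (a := x ^ 2 - x * y + y ^ 2) (b := -1) (by
      have := h2.1
      rwa [sub_neg_eq_add])
    have key : ∀ a b : ZMod 4, (2 * a + 1) ^ 2 - (2 * a + 1) * (2 * b) + (2 * b) ^ 2 = -1 →
      h4 (2 * a + 1) (2 * b) = 4 := by decide +kernel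
    rw [t4_E]
    subst hx hy
    push_cast at hn ⊢
    rw [key _ _ hn, val_4]

/-- on units -/
lemma tt_unit {u : eis} (hu : IsUnit u) : tl u * t4 u = (u : ℂ) := by
  have hz := om_sq
  have h2 := zt_two
  have z0 : zt = -om ^ 2 := rfl
  have z4 : zt ^ 4 = om ^ 2 := by
    calc zt ^ 4 = (zt ^ 2) ^ 2 := by ring
      _ = _ := by rw [h2]
  have z5 : zt ^ 5 = -om := by
    calc zt ^ 5 = zt ^ 3 * zt ^ 2 := by ring
      _ = _ := by rw [h2, zt_three]; ring
  rcases unit_cases hu with rfl | rfl | rfl | rfl | rfl | rfl <;> rw [tl_E, t4_E, ← val_mul, E_coe]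
  · have : mulT (h3 ((1 + 0 : ℤ) : ZMod 3)) (h4 ((1 : ℤ) : ZMod 4) ((0 : ℤ) : ZMod 4)) = 1 := by
      decide +kernel
    rw [this, val_1]; push_cast; ring
  · have : mulT (h3 ((-1 + 0 : ℤ) : ZMod 3)) (h4 ((-1 : ℤ) : ZMod 4) ((0 : ℤ) : ZMod 4)) = 4 := by
      decide +kernel
    rw [this, val_4]; push_cast; ring
  · have : mulT (h3 ((0 + 1 : ℤ) : ZMod 3)) (h4 ((0 : ℤ) : ZMod 4) ((1 : ℤ) : ZMod 4)) = 3 := by
      decide +kernel
    rw [this, val_3]; push_cast; ring
  · have : mulT (h3 ((0 + -1 : ℤ) : ZMod 3)) (h4 ((0 : ℤ) : ZMod 4) ((-1 : ℤ) : ZMod 4)) = 6 := by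
      decide +kernel
    rw [this]
    have e : val 6 = zt ^ 5 := by unfold val; rw [if_neg (by decide)]; rfl
    rw [e, z5]; push_cast; ring
  · have : mulT (h3 ((-1 + -1 : ℤ) : ZMod 3)) (h4 ((-1 : ℤ) : ZMod 4) ((-1 : ℤ) : ZMod 4)) = 5 := by
      decide +kernel
    rw [this]
    have e : val 5 = zt ^ 4 := by unfold val; rw [if_neg (by decide)]; rfl
    rw [e, z4]; push_cast; linear_combination hz
  · have : mulT (h3 ((1 + 1 : ℤ) : ZMod 3)) (h4 ((1 : ℤ) : ZMod 4) ((1 : ℤ) : ZMod 4)) = 2 := by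
      decide +kernel
    rw [this]
    have e : val 2 = zt := by unfold val; rw [if_neg (by decide)]; simp
    rw [e, z0]; push_cast; linear_combination -hz

/-- on normalized elements -/
lemma tt_prm {α : eis} (h : Prm α) : tl α * t4 α = 1 := by
  obtain ⟨e, he, h1, h2, h3⟩ := h
  rcases he with rfl | rfl
  · rw [thl.one α (by simpa using h2), th4.one α h1 (by simpa using h3), one_mul]
  · rw [thl.neg α (by
      have : α + 1 = α - ((-1 : ℤ) : eis) := by push_cast; ring
      rw [this]; exact h2), th4.neg α h1 (by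
      have : α * cj α + 1 = α * cj α - ((-1 : ℤ) : eis) := by push_cast; ring
      rw [this]; exact h3)]
    norm_num

lemma ee_eq (α : eis) : ee psim α = tl α * t4 α := by
  by_cases hc : IsCoprime α (2 * lam)
  · obtain ⟨u, hu, hp⟩ := (cop_iff α).1 hc
    have hα0 : α ≠ 0 := by
      rintro rfl
      rw [mul_zero] at hp
      exact prm_ne hp rfl
    have hs : sp α = sp (u * α) := (Ideal.span_singleton_mul_left_unit hu α).symm
    have hα : (α : ℂ) ≠ 0 := fun h => hα0 (coe_inj' h)
    unfold ee fp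
    rw [hs, psim_prm hp, pow_one]
    push_cast
    rw [mul_div_cancel_right₀ _ hα]
    -- conj u = u⁻¹
    have hn : (u : ℂ) * (starRingEnd ℂ) u = 1 := by
      rw [Complex.mul_conj, (isUnit_iff' u).1 hu]; simp
    have h1 : tl (u * α) * t4 (u * α) = 1 := tt_prm hp
    rw [tl_mul, t4_mul] at h1
    have h2 := tt_unit hu
    have h3 : (u : ℂ) * (tl α * t4 α) = 1 := by
      rw [← h2, ← h1]; ring
    have hu0 : (u : ℂ) ≠ 0 := by
      intro h
      rw [h, zero_mul] at hn
      exact zero_ne_one hn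
    apply mul_left_cancel₀ hu0
    rw [hn, h3]
  · have h0 : psim (sp α) = 0 := by
      rw [psim_zero, Ideal.isCoprime_span_singleton_iff]
      exact hc
    unfold ee fp
    rw [h0, zero_div, map_zero]
    obtain ⟨x, y, rfl⟩ := E_rep α
    rw [cop_iff'] at hc
    by_cases h2 : 2 ∣ x ∧ 2 ∣ y
    · rw [th4.zero _ ((mem_two x y).2 h2), mul_zero]
    · have h3 : 3 ∣ x + y := by
        by_contra h
        exact hc ⟨h2, h⟩
      rw [thl.zero _ ((mem_lam x y).2 h3), zero_mul]

/-- **Piece B1** -/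
theorem piece : P_B1 :=
  ⟨fun _ h => psim_prm h, fun _ h => exists_prm h, psim_zero, hc_psim,
    tl, t4, thl, th4, tl_eo, ee_eq⟩

end Pool.Agent.W2helper19.TQ
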