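import Pool.Agent.W2helper24.TQ.Stm

/-!
Piece B1 of project TQ (helper24): the Hecke character of conductor `4 √-3`.
-/

set_option autoImplicit false

namespace Pool.Agent.W2helper19.TQ

open NumberField IsDedekindDomain Complex
open Pool.Agent.Y696 Pool.Agent.W192.HK Pool.Agent.TH936.CM Pool.Agent.TH936.PU
open Pool.Agent.W2helper24.TQ
open scoped Classical

/-- the element with given coordinates -/
noncomputable def E (x y : ℤ) : eis := (x : eis) + y * omr

lemma E_coe (x y : ℤ) : ((E x y : eis) : ℂ) = x + y * om := by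
  unfold E; push_cast [omr_coe]; rfl

lemma E_inj {x y x' y' : ℤ} (h : E x y = E x' y') : x = x' ∧ y = y' := by
  have h1 := congrArg (fun t : eis => (t : ℂ)) h
  simp only [E_coe] at h1
  have h2 := congrArg Complex.im h1
  have h3 := congrArg Complex.re h1
  simp only [Complex.add_im, Complex.mul_im, Complex.add_re, Complex.mul_re, Complex.intCast_re,
    Complex.intCast_im, zero_mul, add_zero, zero_add, sub_zero] at h2 h3
  have h4 : (y : ℝ) = y' := mul_right_cancel₀ om_im.ne' h2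
  have h5 : y = y' := by exact_mod_cast h4
  subst h5
  have h6 : (x : ℝ) = x' := by linarith
  exact ⟨by exact_mod_cast h6, rfl⟩

lemma E_rep (z : eis) : ∃ x y : ℤ, z = E x y := eis_rep z

lemma E_mul (a b c d : ℤ) : E a b * E c d = E (a * c - b * d) (a * d + b * c - b * d) := by
  unfold E; push_cast
  linear_combination (b * d : eis) * omr_sq

lemma E_add (a b c d : ℤ) : E a b + E c d = E (a + c) (b + d) := by
  unfold E; push_cast; ring

lemma E_sub (a b c d : ℤ) : E a b - E c d = E (a - c) (b - d) := by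
  unfold E; push_cast; ring

lemma E_neg (a b : ℤ) : -E a b = E (-a) (-b) := by
  unfold E; push_cast; ring

lemma E_int (n : ℤ) : ((n : ℤ) : eis) = E n 0 := by
  unfold E; push_cast; ring

lemma E_one : (1 : eis) = E 1 0 := by unfold E; push_cast; ring
lemma E_two : (2 : eis) = E 2 0 := by unfold E; push_cast; ring
lemma E_four : (4 : eis) = E 4 0 := by unfold E; push_cast; ring
lemma E_five : (5 : eis) = E 5 0 := by unfold E; push_cast; ring
lemma E_om : omr = E 0 1 := by unfold E; push_cast; ring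
lemma E_lam : lam = E 1 2 := by unfold E lam; push_cast; ring
lemma E_zero : (0 : eis) = E 0 0 := by unfold E; push_cast; ring

lemma E_cj (a b : ℤ) : cj (E a b) = E (a - b) (-b) := by
  apply coe_inj'
  rw [cj_coe, E_coe, E_coe, map_add, map_mul, conj_om]
  simp only [map_intCast]
  push_cast
  linear_combination (b : ℂ) * om_sq

lemma E_norm (a b : ℤ) : E a b * cj (E a b) = E (a ^ 2 - a * b + b ^ 2) 0 := by
  rw [E_cj, E_mul]; congr 1 <;> ring

lemma mem_int (n : ℤ) (x y : ℤ) : E x y ∈ (sp (E n 0) : Ideal eis) ↔ n ∣ x ∧ n ∣ y := by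
  rw [Ideal.mem_span_singleton']
  constructor
  · rintro ⟨t, ht⟩
    obtain ⟨a, b, rfl⟩ := E_rep t
    rw [E_mul] at ht
    obtain ⟨h1, h2⟩ := E_inj ht
    exact ⟨⟨a, by rw [← h1]; ring⟩, ⟨b, by rw [← h2]; ring⟩⟩
  · rintro ⟨⟨a, rfl⟩, ⟨b, rfl⟩⟩
    exact ⟨E a b, by rw [E_mul]; congr 1 <;> ring⟩

lemma mem_two (x y : ℤ) : E x y ∈ (sp 2 : Ideal eis) ↔ 2 ∣ x ∧ 2 ∣ y := by
  rw [E_two]; exact mem_int 2 x y

lemma mem_four (x y : ℤ) : E x y ∈ (sp 4 : Ideal eis) ↔ 4 ∣ x ∧ 4 ∣ y := by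
  rw [E_four]; exact mem_int 4 x y

lemma mem_lam (x y : ℤ) : E x y ∈ (sp lam : Ideal eis) ↔ 3 ∣ x + y := by
  rw [E_lam, Ideal.mem_span_singleton']
  constructor
  · rintro ⟨t, ht⟩
    obtain ⟨a, b, rfl⟩ := E_rep t
    rw [E_mul] at ht
    obtain ⟨h1, h2⟩ := E_inj ht
    exact ⟨a - b, by linarith⟩
  · rintro ⟨k, hk⟩
    refine ⟨E (2 * k - x) (k - x), ?_⟩
    rw [E_mul]
    congr 1 <;> linarith

/-- the condition in coordinates -/
lemma prm_iff (x y : ℤ) : Prm (E x y) ↔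
    x % 2 = 1 ∧ ((y % 4 = 0 ∧ (x + y) % 3 = 1) ∨ (y % 4 = 2 ∧ (x + y) % 3 = 2)) := by
  unfold Prm
  have key : x % 2 = 1 → y % 2 = 0 →
      (x ^ 2 - x * y + y ^ 2) % 4 = (1 - y) % 4 := by
    intro h1 h2
    obtain ⟨a, rfl⟩ : ∃ a, x = 2 * a + 1 := ⟨x / 2, by omega⟩
    obtain ⟨b, rfl⟩ : ∃ b, y = 2 * b := ⟨y / 2, by omega⟩
    have e : (2 * a + 1) ^ 2 - (2 * a + 1) * (2 * b) + (2 * b) ^ 2 =
      (1 - 2 * b) + 4 * (a ^ 2 + a - a * b + b ^ 2) := by ring
    rw [e]; omega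
  have hred : ∀ e : ℤ, (E x y - 1 ∈ (sp 2 : Ideal eis) ∧ E x y - (e : eis) ∈ (sp lam : Ideal eis) ∧
      E x y * cj (E x y) - (e : eis) ∈ (sp 4 : Ideal eis)) ↔
      ((2 ∣ x - 1 ∧ 2 ∣ y) ∧ 3 ∣ x + y - e ∧ 4 ∣ x ^ 2 - x * y + y ^ 2 - e) := by
    intro e
    rw [E_norm, E_int, E_one, E_sub, E_sub, E_sub, mem_two, mem_lam, mem_four]
    simp only [sub_zero, dvd_zero, and_true]
    rw [show x - e + y = x + y - e by ring]
  constructor
  · rintro ⟨e, he, h⟩
    obtain ⟨⟨h1, h2⟩, h3, h4⟩ := (hred e).1 h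
    have hx : x % 2 = 1 := by omega
    have hy : y % 2 = 0 := by omega
    have := key hx hy
    refine ⟨hx, ?_⟩
    rcases he with rfl | rfl <;> omega
  · rintro ⟨hx, h⟩
    have hy : y % 2 = 0 := by omega
    have := key hx hy
    rcases h with ⟨h1, h2⟩ | ⟨h1, h2⟩
    · exact ⟨1, Or.inl rfl, (hred 1).2 ⟨⟨by omega, by omega⟩, by omega, by omega⟩⟩
    · exact ⟨-1, Or.inr rfl, (hred (-1)).2 ⟨⟨by omega, by omega⟩, by omega, by omega⟩⟩

lemma unit_cases {u : eis} (hu : IsUnit u) : u = E 1 0 ∨ u = E (-1) 0 ∨ u = E 0 1 ∨ u = E 0 (-1) ∨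
    u = E (-1) (-1) ∨ u = E 1 1 := by
  rw [unit_list] at hu
  simp only [Set.mem_insert_iff, Set.mem_singleton_iff] at hu
  have hs : omr ^ 2 = E (-1) (-1) := by
    unfold E; push_cast; linear_combination omr_sq
  rcases hu with rfl | rfl | rfl | rfl | rfl | rfl
  · left; exact E_one
  · right; left; rw [E_one, E_neg]; rfl
  · right; right; left; exact E_om
  · right; right; right; left; rw [E_om, E_neg]; rfl
  · right; right; right; right; left; exact hs
  · right; right; right; right; right; rw [hs, E_neg]; norm_num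

lemma unit_E {a b : ℤ} (h : a ^ 2 - a * b + b ^ 2 = 1) : IsUnit (E a b) := by
  rw [isUnit_iff', E_coe, norm_rep, h]; norm_num

/-- uniqueness of the normalized generators -/
lemma prm_unique {α β : eis} (hα : Prm α) (hβ : Prm β) (h : sp α = sp β) : α = β := by
  obtain ⟨u, hu⟩ := Ideal.span_singleton_eq_span_singleton.1 h
  obtain ⟨x, y, rfl⟩ := E_rep α
  have hα' := (prm_iff x y).1 hα
  rcases unit_cases u.isUnit with h1 | h1 | h1 | h1 | h1 | h1 <;> rw [h1, E_mul] at hu <;>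
    rw [← hu] at hβ ⊢ <;> rw [prm_iff] at hβ
  · congr 1 <;> ring
  all_goals (exfalso; omega)

/-- normalization -/
lemma prm_exists (x y : ℤ) (h2 : ¬ (2 ∣ x ∧ 2 ∣ y)) (h3 : ¬ 3 ∣ x + y) :
    ∃ u : eis, IsUnit u ∧ Prm (u * E x y) := by
  -- the sign
  have sg : ∀ x y : ℤ, x % 2 = 1 → y % 2 = 0 → ¬ 3 ∣ x + y →
      ∃ s : ℤ, (s = 1 ∨ s = -1) ∧ Prm (E (s * x) (s * y)) := by
    intro x y hx hy h3
    by_cases hc : (y % 4 = 0 ∧ (x + y) % 3 = 1) ∨ (y % 4 = 2 ∧ (x + y) % 3 = 2)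
    · exact ⟨1, Or.inl rfl, by rw [one_mul, one_mul, prm_iff]; exact ⟨hx, hc⟩⟩
    · refine ⟨-1, Or.inr rfl, ?_⟩
      rw [prm_iff]
      constructor
      · omega
      · omega
  have gen : ∀ a b : ℤ, a ^ 2 - a * b + b ^ 2 = 1 → (a * x - b * y) % 2 = 1 →
      (a * y + b * x - b * y) % 2 = 0 → ¬ 3 ∣ (a * x - b * y) + (a * y + b * x - b * y) →
      ∃ u : eis, IsUnit u ∧ Prm (u * E x y) := by
    intro a b hab h1 h2 h3
    obtain ⟨s, hs, hp⟩ := sg _ _ h1 h2 h3
    refine ⟨E (s * a) (s * b), unit_E ?_, ?_⟩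
    · rcases hs with rfl | rfl <;> linarith
    · rw [E_mul]
      convert hp using 2 <;> ring
  have hc : (x % 2 = 1 ∧ y % 2 = 0) ∨ (x % 2 = 0 ∧ y % 2 = 1) ∨ (x % 2 = 1 ∧ y % 2 = 1) := by omega
  rcases hc with ⟨h4, h5⟩ | ⟨h4, h5⟩ | ⟨h4, h5⟩
  · exact gen 1 0 (by norm_num) (by omega) (by omega) (by omega)
  · exact gen (-1) (-1) (by norm_num) (by omega) (by omega) (by omega)
  · exact gen 0 1 (by norm_num) (by omega) (by omega) (by omega)

lemma not_unit_two : ¬ IsUnit (2 : eis) := by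
  rw [isUnit_iff', E_two, E_coe, norm_rep]; norm_num

lemma not_unit_lam : ¬ IsUnit lam := by
  rw [isUnit_iff', E_lam, E_coe, norm_rep]; norm_num

lemma prm_cop {α : eis} (h : Prm α) : IsCoprime α (2 * lam) := by
  obtain ⟨e, he, h1, h2, -⟩ := h
  rw [Ideal.mem_span_singleton'] at h1 h2
  obtain ⟨s, hs⟩ := h1
  obtain ⟨t, ht⟩ := h2
  have he2 : (e : eis) * e = 1 := by
    rcases he with rfl | rfl <;> norm_num
  have c1 : IsCoprime α 2 := ⟨1, -s, by linear_combination -hs⟩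
  have c2 : IsCoprime α lam := ⟨(e : eis), -e * t, by linear_combination -(e : eis) * ht + he2⟩
  exact c1.mul_right c2

lemma cop_iff (α : eis) : IsCoprime α (2 * lam) ↔ ∃ u : eis, IsUnit u ∧ Prm (u * α) := by
  constructor
  · intro h
    obtain ⟨x, y, rfl⟩ := E_rep α
    apply prm_exists
    · intro h2
      have h3 : E x y ∈ (sp 2 : Ideal eis) := (mem_two x y).2 h2
      rw [Ideal.mem_span_singleton'] at h3
      obtain ⟨t, ht⟩ := h3
      have h4 : IsCoprime (E x y) 2 := h.of_mul_right_left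
      rw [← ht] at h4
      exact not_unit_two (isCoprime_self.1 h4.of_mul_left_right)
    · intro h2
      have h3 : E x y ∈ (sp lam : Ideal eis) := (mem_lam x y).2 h2
      rw [Ideal.mem_span_singleton'] at h3
      obtain ⟨t, ht⟩ := h3
      have h4 : IsCoprime (E x y) lam := h.of_mul_right_right
      rw [← ht] at h4
      exact not_unit_lam (isCoprime_self.1 h4.of_mul_left_right)
  · rintro ⟨u, hu, h⟩
    exact (prm_cop h).of_mul_left_right

lemma cop_iff' (x y : ℤ) : IsCoprime (E x y) (2 * lam) ↔ ¬ (2 ∣ x ∧ 2 ∣ y) ∧ ¬ 3 ∣ x + y := by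
  constructor
  · intro h
    constructor
    · intro h2
      have h3 : E x y ∈ (sp 2 : Ideal eis) := (mem_two x y).2 h2
      rw [Ideal.mem_span_singleton'] at h3
      obtain ⟨t, ht⟩ := h3
      have h4 : IsCoprime (E x y) 2 := h.of_mul_right_left
      rw [← ht] at h4
      exact not_unit_two (isCoprime_self.1 h4.of_mul_left_right)
    · intro h2
      have h3 : E x y ∈ (sp lam : Ideal eis) := (mem_lam x y).2 h2
      rw [Ideal.mem_span_singleton'] at h3
      obtain ⟨t, ht⟩ := h3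
      have h4 : IsCoprime (E x y) lam := h.of_mul_right_right
      rw [← ht] at h4
      exact not_unit_lam (isCoprime_self.1 h4.of_mul_left_right)
  · rintro ⟨h1, h2⟩
    exact (cop_iff _).2 (prm_exists x y h1 h2)

lemma psim_prm {α : eis} (hα : Prm α) : psim (sp α) = α := by
  have h : ∃ β : eis, sp α = sp β ∧ Prm β := ⟨α, rfl, hα⟩
  unfold psim
  rw [dif_pos h]
  obtain ⟨h1, h2⟩ := Classical.choose_spec h
  rw [← prm_unique hα h2 h1]

lemma exists_prm {I : Ideal eis} (h : IsCoprime I (sp (2 * lam))) : ∃ α : eis, I = sp α ∧ Prm α := by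
  obtain ⟨β, rfl⟩ : ∃ β : eis, I = sp β :=
    ⟨_, (Submodule.IsPrincipal.span_singleton_generator I).symm⟩
  rw [Ideal.isCoprime_span_singleton_iff] at h
  obtain ⟨u, hu, hp⟩ := (cop_iff β).1 h
  exact ⟨u * β, (Ideal.span_singleton_mul_left_unit hu β).symm, hp⟩

lemma prm_ne {α : eis} (hα : Prm α) : α ≠ 0 := by
  rintro rfl
  rw [E_zero, prm_iff] at hα
  omega

lemma psim_zero (I : Ideal eis) : psim I = 0 ↔ ¬ IsCoprime I (sp (2 * lam)) := by
  constructor
  · intro h hc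
    obtain ⟨α, rfl, hα⟩ := exists_prm hc
    rw [psim_prm hα] at h
    exact prm_ne hα (coe_inj' h)
  · intro h
    unfold psim
    rw [dif_neg]
    rintro ⟨α, rfl, hα⟩
    apply h
    rw [Ideal.isCoprime_span_singleton_iff]
    exact prm_cop hα

lemma prm_mul {α β : eis} (hα : Prm α) (hβ : Prm β) : Prm (α * β) := by
  obtain ⟨e, he, a1, a2, a3⟩ := hα
  obtain ⟨f, hf, b1, b2, b3⟩ := hβ
  refine ⟨e * f, ?_, ?_, ?_, ?_⟩
  · rcases he with rfl | rfl <;> rcases hf with rfl | rfl <;> norm_num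
  · have h1 := (sp 2 : Ideal eis).add_mem ((sp 2 : Ideal eis).mul_mem_right β a1) b1
    convert h1 using 1
    ring
  · have h1 := (sp lam : Ideal eis).add_mem ((sp lam : Ideal eis).mul_mem_right β a2)
      ((sp lam : Ideal eis).mul_mem_left (e : eis) b2)
    convert h1 using 1
    push_cast
    ring
  · have h1 := (sp 4 : Ideal eis).add_mem ((sp 4 : Ideal eis).mul_mem_right (β * cj β) a3)
      ((sp 4 : Ideal eis).mul_mem_left (e : eis) b3)
    have hc : cj (α * β) = cj α * cj β := by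
      apply coe_inj'
      push_cast
      simp only [cj_coe]
      push_cast
      rw [map_mul]
    convert h1 using 1
    rw [hc]
    push_cast
    ring

end Pool.Agent.W2helper19.TQ
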